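import Pool.Agent.H444.MH.Stm

/-!
# Project MH (helper444), job INC: increments of `log |ζ|`
-/

set_option autoImplicit false

namespace Pool.Agent.H740.MH

open Filter Topology MeasureTheory Complex
open Pool.Agent.Q97.UM Pool.Agent.H444.MH
open Pool.Agent.Q247.UM (dp_cont mvl4 big_T)

noncomputable section

/-- the logarithm near one -/
theorem pbound {z w : ℂ} (hr : ‖z‖ ≤ 3 / 4) (hw : ‖w‖ = 1) :
    |Real.log ‖1 - z‖ - Real.log ‖1 - z * w‖ - ((w - 1) * z).re| ≤ 4 * ‖z‖ ^ 2 * ‖w - 1‖ := by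
  set r := ‖z‖ with hrdef
  have hr0 : 0 ≤ r := norm_nonneg _
  have hne : ∀ ξ ∈ Metric.closedBall (0 : ℂ) r, 1 - ξ ∈ slitPlane := by
    intro ξ hξ
    have h1 : ‖ξ‖ ≤ r := by simpa using hξ
    have h2 := Complex.abs_re_le_norm ξ
    have h3 := le_abs_self ξ.re
    left
    rw [Complex.sub_re, Complex.one_re]
    linarith
  have hd : ∀ ξ ∈ Metric.closedBall (0 : ℂ) r, HasDerivWithinAt
      (fun ξ : ℂ => -Complex.log (1 - ξ) - ξ) (ξ / (1 - ξ)) (Metric.closedBall (0 : ℂ) r) ξ := by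
    intro ξ hξ
    have h1 : HasDerivAt (fun ξ : ℂ => 1 - ξ) (-1) ξ := by
      simpa using (hasDerivAt_id ξ).const_sub 1
    have h2 := (h1.clog (hne ξ hξ)).neg.sub (hasDerivAt_id ξ)
    have h3 : -(-1 / (1 - ξ)) - 1 = ξ / (1 - ξ) := by
      have h4 : 1 - ξ ≠ 0 := slitPlane_ne_zero (hne ξ hξ)
      field_simp
      ring
    rw [h3] at h2
    exact h2.hasDerivWithinAt
  have hb : ∀ ξ ∈ Metric.closedBall (0 : ℂ) r, ‖ξ / (1 - ξ)‖ ≤ 4 * r := by
    intro ξ hξ
    have h1 : ‖ξ‖ ≤ r := by simpa using hξ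
    have h2 : 1 / 4 ≤ ‖1 - ξ‖ := by
      have := norm_sub_norm_le (1 : ℂ) ξ
      rw [norm_one] at this
      linarith
    rw [norm_div, div_le_iff₀ (by linarith)]
    nlinarith
  have hz : z ∈ Metric.closedBall (0 : ℂ) r := by simp [hrdef]
  have hzw : z * w ∈ Metric.closedBall (0 : ℂ) r := by simp [hrdef, hw]
  have h1 := (convex_closedBall (0 : ℂ) r).norm_image_sub_le_of_norm_hasDerivWithin_le hd hb hz hzw
  have h2 : ‖z * w - z‖ = r * ‖w - 1‖ := by
    rw [hrdef, ← norm_mul]; congr 1; ring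
  rw [h2] at h1
  have h3 : Real.log ‖1 - z‖ - Real.log ‖1 - z * w‖ - ((w - 1) * z).re =
      ((-Complex.log (1 - z * w) - z * w) - (-Complex.log (1 - z) - z)).re := by
    rw [← Complex.log_re, ← Complex.log_re]
    simp only [Complex.sub_re, Complex.neg_re]
    have : ((w - 1) * z).re = (z * w).re - z.re := by
      rw [← Complex.sub_re]; congr 1; ring
    rw [this]; ring
  rw [h3]
  refine (Complex.abs_re_le_norm _).trans (h1.trans (le_of_eq ?_))
  ring

/-- the coefficients -/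
def al1 (h : ℝ) (X : ℕ) (n : ℕ) : ℂ := if n.Prime ∧ n ≤ X then (n : ℂ) ^ (-(h * I)) - 1 else 0

theorem al1_norm (h : ℝ) (X n : ℕ) : ‖al1 h X n‖ ≤ |h| * Real.log n := by
  unfold al1
  split_ifs with hn
  · have h0 : (n : ℂ) ≠ 0 := by exact_mod_cast hn.1.ne_zero
    rw [Complex.cpow_def_of_ne_zero h0, ← Complex.natCast_log]
    have e : (Real.log n : ℂ) * -(h * I) = I * ((-(h * Real.log n) : ℝ) : ℂ) := by
      push_cast; ring
    rw [e]
    refine Real.norm_exp_I_mul_ofReal_sub_one_le.trans (le_of_eq ?_)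
    have hl : 0 ≤ Real.log n := Real.log_natCast_nonneg n
    rw [Real.norm_eq_abs, abs_neg, abs_mul, abs_of_nonneg hl]
  · rw [norm_zero]
    exact mul_nonneg (abs_nonneg _) (Real.log_natCast_nonneg n)

/-- increments of the Euler product -/
theorem EP_diff (X : ℕ) (h t : ℝ) :
    |EP X (t + h) - EP X t - (dp X (al1 h X) t).re| ≤
      4 * |h| * ∑ p ∈ (Finset.Icc 1 X).filter Nat.Prime, Real.log p / p := by
  have e1 : (dp X (al1 h X) t).re = ∑ p ∈ (Finset.Icc 1 X).filter Nat.Prime,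
      (((p : ℂ) ^ (-(h * I)) - 1) * (p : ℂ) ^ (-(1 / 2 + t * I))).re := by
    unfold dp
    rw [Complex.re_sum, Finset.sum_filter]
    refine Finset.sum_congr rfl fun n hn => ?_
    unfold al1
    by_cases hp : n.Prime
    · rw [if_pos ⟨hp, (Finset.mem_Icc.1 hn).2⟩, if_pos hp]
    · rw [if_neg (fun h => hp h.1), if_neg hp, zero_mul, Complex.zero_re]
  rw [e1]
  unfold EP
  have e2 : -∑ p ∈ (Finset.Icc 1 X).filter Nat.Prime,
        Real.log ‖1 - (p : ℂ) ^ (-(1 / 2 + ((t + h : ℝ) : ℂ) * I))‖ -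
      -∑ p ∈ (Finset.Icc 1 X).filter Nat.Prime, Real.log ‖1 - (p : ℂ) ^ (-(1 / 2 + t * I))‖ -
      ∑ p ∈ (Finset.Icc 1 X).filter Nat.Prime,
        (((p : ℂ) ^ (-(h * I)) - 1) * (p : ℂ) ^ (-(1 / 2 + t * I))).re =
      ∑ p ∈ (Finset.Icc 1 X).filter Nat.Prime, (Real.log ‖1 - (p : ℂ) ^ (-(1 / 2 + t * I))‖ -
        Real.log ‖1 - (p : ℂ) ^ (-(1 / 2 + ((t + h : ℝ) : ℂ) * I))‖ -
        (((p : ℂ) ^ (-(h * I)) - 1) * (p : ℂ) ^ (-(1 / 2 + t * I))).re) := by
    rw [Finset.sum_sub_distrib, Finset.sum_sub_distrib]; ring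
  rw [e2, Finset.mul_sum]
  refine (Finset.abs_sum_le_sum_abs _ _).trans (Finset.sum_le_sum fun p hp => ?_)
  have hp' := (Finset.mem_filter.1 hp).2
  have hp0 : (p : ℂ) ≠ 0 := by exact_mod_cast hp'.ne_zero
  have hpr : (0 : ℝ) < p := by exact_mod_cast hp'.pos
  have hz : ‖(p : ℂ) ^ (-(1 / 2 + (t : ℂ) * I))‖ = (Real.sqrt p)⁻¹ :=
    Pool.Agent.Q84.UM.norm_half hp'.one_lt.le t
  have hz2 : ‖(p : ℂ) ^ (-(1 / 2 + (t : ℂ) * I))‖ ^ 2 = 1 / p := by
    rw [hz, inv_pow, Real.sq_sqrt hpr.le, one_div]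
  have hz3 : ‖(p : ℂ) ^ (-(1 / 2 + (t : ℂ) * I))‖ ≤ 3 / 4 := by
    have h2 : (2 : ℝ) ≤ p := by exact_mod_cast hp'.two_le
    have h3 : 1 / (p : ℝ) ≤ 1 / 2 := one_div_le_one_div_of_le (by norm_num) h2
    have h4 : ‖(p : ℂ) ^ (-(1 / 2 + (t : ℂ) * I))‖ ^ 2 ≤ (3 / 4) ^ 2 := by
      rw [hz2]; norm_num; norm_num at h3; linarith
    exact le_of_sq_le_sq h4 (by norm_num)
  have hw : ‖(p : ℂ) ^ (-((h : ℂ) * I))‖ = 1 := by
    have := Pool.Agent.Q84.UM.norm_tw hp'.one_lt.le (-h)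
    rw [← this]
    congr 2
    push_cast; ring
  have hzw : (p : ℂ) ^ (-(1 / 2 + ((t + h : ℝ) : ℂ) * I)) =
      (p : ℂ) ^ (-(1 / 2 + (t : ℂ) * I)) * (p : ℂ) ^ (-((h : ℂ) * I)) := by
    rw [← Complex.cpow_add _ _ hp0]
    congr 1
    push_cast; ring
  rw [hzw]
  refine (pbound hz3 hw).trans ?_
  rw [hz2]
  have h5 : ‖(p : ℂ) ^ (-((h : ℂ) * I)) - 1‖ ≤ |h| * Real.log p := by
    have := al1_norm h p p
    unfold al1 at this
    rwa [if_pos ⟨hp', le_rfl⟩] at this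
  calc 4 * (1 / (p : ℝ)) * ‖(p : ℂ) ^ (-((h : ℂ) * I)) - 1‖
      ≤ 4 * (1 / (p : ℝ)) * (|h| * Real.log p) := mul_le_mul_of_nonneg_left h5 (by positivity)
    _ = 4 * |h| * (Real.log p / p) := by ring

set_option maxHeartbeats 4000000 in
/-- `INC` -/
theorem t_INC : S_INC := by
  obtain ⟨θ₀, δ₁, hθ₀, hδ₁, hTHP⟩ := b_THP 1
  obtain ⟨Cm, hCm0, hCm⟩ := Pool.Agent.Q198.UM.mert_le
  obtain ⟨C₀, hC₀, hPRM⟩ := Pool.Agent.Q198.UM.t_PRM
  have hDPM := Pool.Agent.Q84.UM.t_DPM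
  have hMVL := Pool.Agent.Q84.UM.t_MVL
  refine ⟨35 + 21 * C₀, min δ₁ (1 / 32), by linarith, lt_min hδ₁ (by norm_num), ?_⟩
  intro δ hδ hδle
  obtain ⟨Cδ, hCδ0, hCδ⟩ := hTHP δ hδ (hδle.trans (min_le_left _ _))
  have hδ32 : δ ≤ 1 / 32 := hδle.trans (min_le_right _ _)
  refine ⟨2 * Cδ + 7, by linarith, ?_⟩
  intro Y
  set θ : ℝ := min θ₀ (min (1 / 40) δ) with hθdef
  have hθ : 0 < θ := lt_min hθ₀ (lt_min (by norm_num) hδ)
  have hθ1 : θ ≤ θ₀ := min_le_left _ _
  have hθ2 : θ ≤ 1 / 40 := (min_le_right _ _).trans (min_le_left _ _)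
  have hθ3 : θ ≤ δ := (min_le_right _ _).trans (min_le_right _ _)
  refine ⟨θ, hθ, hθ2, ?_⟩
  have hlogT := Real.tendsto_log_atTop
  have hlog_o : ∀ᶠ T : ℝ in atTop, Real.log T ≤ T / 16 := by
    have h1 := Real.isLittleO_log_id_atTop.bound (show (0:ℝ) < 1 / 16 by norm_num)
    filter_upwards [h1, eventually_ge_atTop 1] with T hT h1T
    simp only [id, Real.norm_eq_abs] at hT
    rw [abs_of_nonneg (Real.log_nonneg h1T), abs_of_nonneg (by linarith : (0:ℝ) ≤ T)] at hT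
    linarith
  filter_upwards [hCδ, big_T δ hδ, hlogT.eventually_ge_atTop (max (4 * Cm * |Y|) (max |Y| 1)),
    hlog_o] with T tT tB tL tO
  obtain ⟨B1, B2, B3, B4, B5⟩ := tB
  set L := Real.log T with hL
  have hL1 : 1 ≤ L := (le_max_right _ _).trans ((le_max_right _ _).trans tL)
  have hLY : |Y| ≤ L := (le_max_left _ _).trans ((le_max_right _ _).trans tL)
  have hLC : 4 * Cm * |Y| ≤ L := (le_max_left _ _).trans tL
  have hL0 : 0 < L := by linarith
  have hT0 : 0 < T := by linarith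
  have hT1 : 1 ≤ T := by linarith
  set h := Y / L with hh
  have hh1 : |h| ≤ 1 := by
    rw [hh, abs_div, abs_of_pos hL0, div_le_one hL0]; exact hLY
  have hhL : |h| * L = |Y| := by
    rw [hh, abs_div, abs_of_pos hL0, div_mul_cancel₀ _ hL0.ne']
  have hmlog : Measurable (fun t : ℝ => Real.log ‖zt t‖) :=
    Real.measurable_log.comp Pool.Agent.Q247.UM.zt_cont.norm.measurable
  have hmeas : Measurable (fun t : ℝ => |Real.log ‖zt (t + h)‖ - Real.log ‖zt t‖|) :=
    ((hmlog.comp (measurable_id.add_const h)).sub hmlog).abs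
  refine ⟨fun t => abs_nonneg _, hmeas, ?_⟩
  intro N hN b
  set X := ⌊T ^ δ⌋₊ with hX
  have hXle : (X : ℝ) ≤ T ^ δ := Nat.floor_le (by positivity)
  have hX2 : (2 : ℝ) ≤ X := by exact_mod_cast B3
  have hX0 : (0 : ℝ) < X := by linarith
  have hlogX : Real.log X ≤ δ * L := by
    have h1 := Real.log_le_log hX0 hXle
    rwa [Real.log_rpow hT0] at h1
  have hlogX0 : 0 < Real.log X := Real.log_pos (by linarith)
  have hlogX2 : δ / 2 * L ≤ Real.log X := by
    rw [hL, ← Real.log_rpow hT0]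
    exact Real.log_le_log (by positivity) B2
  have hN16 : (N : ℝ) ≤ T ^ (1 / 16 : ℝ) :=
    hN.trans (Real.rpow_le_rpow_of_exponent_le hT1 (by linarith))
  have hN2 := Pool.Agent.Q247.UM.N2_nonneg N b
  -- intervals
  have i1 : T / 2 ≤ T + 3 * L := by linarith
  have i2 : T + 3 * L ≤ 2 * T - 3 * L := by linarith
  have i3 : 2 * T - 3 * L ≤ 4 * T := by linarith
  have hsub0 : Set.uIcc (T + 3 * L) (2 * T - 3 * L) ⊆ Set.uIcc (T / 2) (4 * T) := by
    rw [Set.uIcc_of_le i2, Set.uIcc_of_le (by linarith)]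
    exact Set.Icc_subset_Icc i1 i3
  -- the second part
  obtain ⟨q1, q2⟩ := tT N (hN.trans (Real.rpow_le_rpow_of_exponent_le hT1 hθ1)) b
  simp only [pow_one] at q1 q2
  -- the first part
  set b1 : ℕ → ℂ := fun n => b n * (n : ℂ) ^ (h * I) with hb1
  have hb1s : ∀ t, dp N b (t - h) = dp N b1 t := fun t => (hDPM.2.1 N b t h).1
  have hb1n : N2 N b1 = N2 N b := (hDPM.2.1 N b 0 h).2
  obtain ⟨p1, p2⟩ := tT N (hN.trans (Real.rpow_le_rpow_of_exponent_le hT1 hθ1)) b1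
  simp only [pow_one] at p1 p2
  rw [hb1n] at p2
  have hah := abs_le.1 hh1
  have hsub1 : Set.uIcc (T + 3 * L + h) (2 * T - 3 * L + h) ⊆ Set.uIcc (T / 2) (4 * T) := by
    rw [Set.uIcc_of_le (by linarith), Set.uIcc_of_le (by linarith)]
    exact Set.Icc_subset_Icc (by linarith [hah.1]) (by linarith [hah.2])
  set G : ℝ → ℝ := fun t => |Real.log ‖zt t‖ - EP X t| with hG
  have hG0 : ∀ t, 0 ≤ G t := fun t => abs_nonneg _
  have cB : ∀ c : ℕ → ℂ, Continuous (fun t => ‖dp N c t‖ ^ 2) := fun c => (dp_cont N c).norm.pow 2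
  -- integrability of the three parts
  have g2 : IntervalIntegrable (fun t => G t * ‖dp N b t‖ ^ 2) volume (T + 3 * L) (2 * T - 3 * L) :=
    q1.mono_set hsub0
  have g2' : ∫ t in (T + 3 * L)..(2 * T - 3 * L), G t * ‖dp N b t‖ ^ 2 ≤ Cδ * T * N2 N b := by
    refine le_trans ?_ q2
    refine intervalIntegral.integral_mono_interval i1 i2 i3 ?_ q1
    exact Eventually.of_forall fun t => mul_nonneg (hG0 t) (by positivity)
  have e1 : ∀ t, G (t + h) * ‖dp N b t‖ ^ 2 = (fun s => G s * ‖dp N b1 s‖ ^ 2) (t + h) := by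
    intro t
    show _ = G (t + h) * ‖dp N b1 (t + h)‖ ^ 2
    rw [← hb1s, add_sub_cancel_right]
  have g1 : IntervalIntegrable (fun t => G (t + h) * ‖dp N b t‖ ^ 2) volume (T + 3 * L)
      (2 * T - 3 * L) := by
    simp only [e1]
    have h1 : IntervalIntegrable (fun s => G s * ‖dp N b1 s‖ ^ 2) volume (T + 3 * L + h)
      (2 * T - 3 * L + h) := p1.mono_set hsub1
    have h2 := h1.comp_add_right h
    simpa using h2
  have g1' : ∫ t in (T + 3 * L)..(2 * T - 3 * L), G (t + h) * ‖dp N b t‖ ^ 2 ≤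
      Cδ * T * N2 N b := by
    simp only [e1]
    rw [intervalIntegral.integral_comp_add_right (fun s => G s * ‖dp N b1 s‖ ^ 2)]
    refine le_trans ?_ p2
    refine intervalIntegral.integral_mono_interval (by linarith [hah.1]) (by linarith)
      (by linarith [hah.2]) ?_ p1
    exact Eventually.of_forall fun t => mul_nonneg (hG0 t) (by positivity)
  -- the prime sum
  have hDB : ∫ t in (T + 3 * L)..(2 * T - 3 * L), ‖dp N b t‖ ^ 2 ≤ 7 * T * N2 N b := by
    refine le_trans ?_ (mvl4 hMVL B1 N (hN16.trans B4) b)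
    exact intervalIntegral.integral_mono_interval i1 i2 i3
      (Eventually.of_forall fun t => by positivity) ((cB b).intervalIntegrable _ _)
  set a : ℝ → ℂ := dp X (al1 h X) with ha
  have ca : Continuous a := dp_cont X _
  set A : ℝ := δ * |Y| with hA
  have hA0 : 0 ≤ A := by positivity
  have hAn : ∀ n, ‖al1 h X n‖ ≤ A * (Real.log n / Real.log X) := by
    intro n
    refine (al1_norm h X n).trans ?_
    have hl : 0 ≤ Real.log n := Real.log_natCast_nonneg n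
    rw [mul_div_assoc', le_div_iff₀ hlogX0, hA, ← hhL]
    have : |h| * Real.log n * Real.log X ≤ |h| * Real.log n * (δ * L) :=
      mul_le_mul_of_nonneg_left hlogX (by positivity)
    linarith
  have haB : ∫ t in (T + 3 * L)..(2 * T - 3 * L), ‖a t‖ ^ 2 * ‖dp N b t‖ ^ 2 ≤
      21 * C₀ * A ^ 2 * T * N2 N b := by
    rcases Nat.eq_zero_or_pos N with hN0 | hN0
    · subst hN0
      have e0 : ∀ t, dp 0 b t = 0 := fun t => by simp [dp]
      simp only [e0, norm_zero]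
      have : N2 0 b = 0 := by simp [N2]
      rw [this]
      simp
    set b' : ℕ → ℂ := fun n => if n ≤ N then b n else 0 with hb'
    have hb'1 : ∀ n, N < n → b' n = 0 := fun n hn => if_neg (not_le.2 hn)
    have hdp : ∀ t, dp N b' t = dp N b t := by
      intro t
      refine Finset.sum_congr rfl fun n hn => ?_
      rw [hb']
      simp only [if_pos (Finset.mem_Icc.1 hn).2]
    have hN2' : N2 N b' = N2 N b := by
      refine Finset.sum_congr rfl fun n hn => ?_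
      rw [hb']
      simp only [if_pos (Finset.mem_Icc.1 hn).2]
    have hα1 : ∀ n, al1 h X n ≠ 0 → n.Prime ∧ n ≤ X := by
      intro n hn
      by_contra hc
      exact hn (if_neg hc)
    have hα : ∀ n, X < n → al1 h X n = 0 := by
      intro n hn
      by_contra hc
      exact absurd (hα1 n hc).2 (not_le.2 hn)
    have h1 := hPRM X N A (al1 h X) b' B3 hN0 hA0 hα1 hAn hb'1
    have hlogN : Real.log N ≤ θ * L := by
      rw [hL, ← Real.log_rpow hT0]
      exact Real.log_le_log (by exact_mod_cast hN0) hN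
    have h2 : 1 + Real.log N / Real.log X ≤ 3 := by
      have : Real.log N / Real.log X ≤ 2 := by
        rw [div_le_iff₀ hlogX0]
        nlinarith
      linarith
    have h3 : N2 (X * N) (cv (al1 h X) b') ≤ C₀ * A ^ 2 * 3 * N2 N b := by
      rw [← hN2']
      refine h1.trans ?_
      refine mul_le_mul_of_nonneg_right ?_ (Pool.Agent.Q247.UM.N2_nonneg _ _)
      exact mul_le_mul_of_nonneg_left h2 (by positivity)
    have hsize : ((X * N : ℕ) : ℝ) ≤ (T / 2) ^ (1 / 4 : ℝ) := by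
      refine le_trans ?_ B4
      rw [Nat.cast_mul]
      calc (X : ℝ) * N ≤ T ^ δ * T ^ θ := mul_le_mul hXle hN (by positivity) (by positivity)
        _ = T ^ (δ + θ) := by rw [← Real.rpow_add hT0]
        _ ≤ T ^ (1 / 16 : ℝ) := Real.rpow_le_rpow_of_exponent_le hT1 (by linarith)
    have h4 := mvl4 hMVL B1 (X * N) hsize (cv (al1 h X) b')
    have e2 : ∀ t, ‖a t‖ ^ 2 * ‖dp N b t‖ ^ 2 = ‖dp (X * N) (cv (al1 h X) b') t‖ ^ 2 := by
      intro t
      rw [← hDPM.1 X N (al1 h X) b' t hα hb'1, hdp, norm_mul, mul_pow]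
    simp only [e2]
    refine le_trans (intervalIntegral.integral_mono_interval i1 i2 i3
      (Eventually.of_forall fun t => by positivity)
      (((dp_cont _ _).norm.pow 2).intervalIntegrable _ _)) (h4.trans ?_)
    have : 7 * T * N2 (X * N) (cv (al1 h X) b') ≤ 7 * T * (C₀ * A ^ 2 * 3 * N2 N b) :=
      mul_le_mul_of_nonneg_left h3 (by positivity)
    linarith
  -- the deterministic part
  have hdet : ∀ t, |EP X (t + h) - EP X t| ≤ (4 * A + 1) + ‖a t‖ := by
    intro t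
    have h1 := EP_diff X h t
    have h2 := hCm X (by omega)
    have h3 : 4 * |h| * ∑ p ∈ (Finset.Icc 1 X).filter Nat.Prime, Real.log p / p ≤ 4 * A + 1 := by
      have h4 : 4 * |h| * ∑ p ∈ (Finset.Icc 1 X).filter Nat.Prime, Real.log p / p ≤
          4 * |h| * (δ * L + Cm) :=
        mul_le_mul_of_nonneg_left (h2.trans (by linarith)) (by positivity)
      have h5 : 4 * |h| * (δ * L + Cm) = 4 * A + 4 * Cm * |h| := by
        rw [hA, ← hhL]; ring
      have h6 : 4 * Cm * |h| ≤ 1 := by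
        have h7 : 4 * Cm * |h| * L ≤ 1 * L := by
          calc 4 * Cm * |h| * L = 4 * Cm * (|h| * L) := by ring
            _ = 4 * Cm * |Y| := by rw [hhL]
            _ ≤ 1 * L := by linarith
        exact le_of_mul_le_mul_right h7 hL0
      linarith
    have h4 := Complex.abs_re_le_norm (dp X (al1 h X) t)
    have h5 : EP X (t + h) - EP X t = (EP X (t + h) - EP X t - (dp X (al1 h X) t).re) +
      (dp X (al1 h X) t).re := by ring
    rw [h5]
    refine (abs_add_le _ _).trans ?_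
    exact add_le_add (h1.trans h3) h4
  -- the pointwise bound
  have hpt : ∀ t, |Real.log ‖zt (t + h)‖ - Real.log ‖zt t‖| ≤
      G (t + h) + G t + ((4 * A + 1) + ‖a t‖) := by
    intro t
    have e : Real.log ‖zt (t + h)‖ - Real.log ‖zt t‖ = (Real.log ‖zt (t + h)‖ - EP X (t + h)) +
      (-(Real.log ‖zt t‖ - EP X t)) + (EP X (t + h) - EP X t) := by ring
    rw [e]
    refine (abs_add_le _ _).trans (add_le_add ((abs_add_le _ _).trans ?_) (hdet t))
    rw [abs_neg]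
  by_cases hY : Y = 0
  · have hf0 : ∀ t, |Real.log ‖zt (t + h)‖ - Real.log ‖zt t‖| = 0 := by
      intro t
      have : h = 0 := by rw [hh, hY, zero_div]
      rw [this, add_zero, sub_self, abs_zero]
    simp only [hf0, zero_mul]
    refine ⟨by simp, ?_⟩
    rw [intervalIntegral.integral_zero]
    have : 0 ≤ 2 * Cδ + 7 + (35 + 21 * C₀) * δ * |Y| := by positivity
    positivity
  have hYpos : 0 < |Y| := abs_pos.2 hY
  have hApos : 0 < A := mul_pos hδ hYpos
  have hpt2 : ∀ t, |Real.log ‖zt (t + h)‖ - Real.log ‖zt t‖| * ‖dp N b t‖ ^ 2 ≤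
      G (t + h) * ‖dp N b t‖ ^ 2 + G t * ‖dp N b t‖ ^ 2 + ((5 * A + 1) * ‖dp N b t‖ ^ 2 +
        (1 / A) * (‖a t‖ ^ 2 * ‖dp N b t‖ ^ 2)) := by
    intro t
    have h1 : ‖a t‖ ≤ A + 1 / A * ‖a t‖ ^ 2 := by
      have h2 : 0 ≤ (‖a t‖ - A) ^ 2 := sq_nonneg _
      have h3 : A * ‖a t‖ ≤ A * A + ‖a t‖ ^ 2 := by nlinarith [mul_nonneg hA0 (norm_nonneg (a t))]
      have h4 : ‖a t‖ = (A * ‖a t‖) / A := by field_simp
      rw [h4]
      rw [div_le_iff₀ hApos]
      have h5 : (A + 1 / A * (A * ‖a t‖ / A) ^ 2) * A = A * A + ‖a t‖ ^ 2 := by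
        field_simp
      rw [h5]; exact h3
    have h2 := hpt t
    have h3 : |Real.log ‖zt (t + h)‖ - Real.log ‖zt t‖| ≤
        G (t + h) + G t + ((5 * A + 1) + 1 / A * ‖a t‖ ^ 2) := by linarith
    refine (mul_le_mul_of_nonneg_right h3 (by positivity)).trans (le_of_eq ?_)
    ring
  have g3 : IntervalIntegrable (fun t => (5 * A + 1) * ‖dp N b t‖ ^ 2) volume (T + 3 * L)
      (2 * T - 3 * L) := ((cB b).const_mul _).intervalIntegrable _ _
  have g4 : IntervalIntegrable (fun t => (1 / A) * (‖a t‖ ^ 2 * ‖dp N b t‖ ^ 2)) volume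
      (T + 3 * L) (2 * T - 3 * L) :=
    (((ca.norm.pow 2).mul (cB b)).const_mul _).intervalIntegrable _ _
  have gall := (g1.add g2).add (g3.add g4)
  have hI : IntervalIntegrable (fun t => |Real.log ‖zt (t + h)‖ - Real.log ‖zt t‖| *
      ‖dp N b t‖ ^ 2) volume (T + 3 * L) (2 * T - 3 * L) := by
    refine gall.mono_fun' (hmeas.mul (cB b).measurable).aestronglyMeasurable ?_
    refine Eventually.of_forall fun t => ?_
    show ‖|Real.log ‖zt (t + h)‖ - Real.log ‖zt t‖| * ‖dp N b t‖ ^ 2‖ ≤ _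
    rw [Real.norm_of_nonneg (by positivity)]
    exact hpt2 t
  refine ⟨hI, ?_⟩
  have hmono := intervalIntegral.integral_mono i2 hI gall hpt2
  refine hmono.trans ?_
  have e3 : (∫ t in (T + 3 * L)..(2 * T - 3 * L), (G (t + h) * ‖dp N b t‖ ^ 2 +
      G t * ‖dp N b t‖ ^ 2 + ((5 * A + 1) * ‖dp N b t‖ ^ 2 +
        (1 / A) * (‖a t‖ ^ 2 * ‖dp N b t‖ ^ 2)))) =
      (∫ t in (T + 3 * L)..(2 * T - 3 * L), G (t + h) * ‖dp N b t‖ ^ 2) +
      (∫ t in (T + 3 * L)..(2 * T - 3 * L), G t * ‖dp N b t‖ ^ 2) +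
      ((5 * A + 1) * (∫ t in (T + 3 * L)..(2 * T - 3 * L), ‖dp N b t‖ ^ 2) +
      (1 / A) * ∫ t in (T + 3 * L)..(2 * T - 3 * L), ‖a t‖ ^ 2 * ‖dp N b t‖ ^ 2) := by
    rw [intervalIntegral.integral_add (g1.add g2) (g3.add g4), intervalIntegral.integral_add g1 g2,
      intervalIntegral.integral_add g3 g4, intervalIntegral.integral_const_mul,
      intervalIntegral.integral_const_mul]
  have e4 : (1 / A) * (21 * C₀ * A ^ 2 * T * N2 N b) = 21 * C₀ * A * T * N2 N b := by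
    field_simp
  have h8 : (1 / A) * (∫ t in (T + 3 * L)..(2 * T - 3 * L), ‖a t‖ ^ 2 * ‖dp N b t‖ ^ 2) ≤
      21 * C₀ * A * T * N2 N b := by
    rw [← e4]
    exact mul_le_mul_of_nonneg_left haB (by positivity)
  have h9 : (5 * A + 1) * (∫ t in (T + 3 * L)..(2 * T - 3 * L), ‖dp N b t‖ ^ 2) ≤
      (5 * A + 1) * (7 * T * N2 N b) := mul_le_mul_of_nonneg_left hDB (by positivity)
  refine (le_of_eq e3).trans ?_
  have e5 : (2 * Cδ + 7 + (35 + 21 * C₀) * δ * |Y|) * T * N2 N b =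
      Cδ * T * N2 N b + Cδ * T * N2 N b + ((5 * A + 1) * (7 * T * N2 N b) +
        21 * C₀ * A * T * N2 N b) := by
    rw [hA]; ring
  rw [e5]
  linarith

end

end Pool.Agent.H740.MH
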